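import Pool.Agent.Helper74.CO.Goals

/-!
# Project CO (MP_c5396e_co), packet GP
-/

set_option autoImplicit false

namespace Pool.Agent.Helper50.CO

open Finset Pool.Agent.Helper74.CO

theorem ex_add (a b : ℝ) : ex (a + b) = ex a * ex b := by
  unfold ex
  rw [← Complex.exp_add]
  congr 1
  push_cast
  ring

theorem nrm {F : Type} [Field F] [Fintype F] (χ : MulChar F ℂ) (x : F) : ‖χ x‖ ≤ 1 := by
  classical
  by_cases hx : x = 0
  · rw [hx, MulChar.map_zero]
    simp
  · have h1 : χ x ^ (Fintype.card F - 1) = 1 := by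
      rw [← map_pow, FiniteField.pow_card_sub_one_eq_one x hx, map_one]
    have h2 : Fintype.card F - 1 ≠ 0 := by
      have : 1 < Fintype.card F := Fintype.one_lt_card
      omega
    exact (Complex.norm_eq_one_of_pow_eq_one h1 h2).le

/-- missing terms -/
theorem miss {F : Type} [Fintype F] [DecidableEq F] (X B : Finset F) (g h : F → ℂ)
    (hB : ∀ x, x ∉ X → x ∈ B) (hB5 : #B ≤ 5) (hg : ∀ x, ‖g x‖ ≤ 1) (hh : ∀ x ∈ X, h x = g x) :
    ‖∑ x ∈ X, h x‖ ≤ ‖∑ x, g x‖ + 5 := by
  have h1 : ∑ x ∈ X, h x = ∑ x, g x - ∑ x ∈ Xᶜ, g x := by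
    rw [Finset.sum_congr rfl hh, ← Finset.sum_add_sum_compl X g]
    ring
  have h2 : ‖∑ x ∈ Xᶜ, g x‖ ≤ 5 := by
    refine (norm_sum_le _ _).trans ?_
    have h3 : ∑ x ∈ Xᶜ, ‖g x‖ ≤ ∑ x ∈ Xᶜ, (1 : ℝ) := Finset.sum_le_sum fun x _ => hg x
    refine h3.trans ?_
    rw [Finset.sum_const, nsmul_eq_mul, mul_one]
    have h4 : #Xᶜ ≤ #B := Finset.card_le_card fun x hx => hB x (by simpa using hx)
    exact_mod_cast h4.trans hB5
  rw [h1]
  exact (norm_sub_le _ _).trans (by linarith)

theorem t_GP (hL : LIM) (hT : ∀ (F : Type) [Field F] [Fintype F] [DecidableEq F], TP F)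
    (hJ : ∀ (F : Type) [Field F] [Fintype F] [DecidableEq F], JAC F) (hC : CHM) : GP := by
  intro K κ hκ
  obtain ⟨q₁, hq₁⟩ := hL κ hκ
  refine ⟨max q₁ (K + 6), ?_⟩
  intro F _ _ _ β e f hq hβ he hf hef hn
  have hq1 : q₁ ≤ Fintype.card F := (le_max_left _ _).trans hq
  have hq2 : K + 6 ≤ Fintype.card F := (le_max_right _ _).trans hq
  obtain ⟨χ, hχ1, hχ2⟩ := hC F β hβ (by omega)
  have hlim := hq₁ (Fintype.card F) hq1
  set q := Fintype.card F with hqdef
  have hqR : (1 : ℝ) ≤ (q : ℝ) := by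
    have : 1 ≤ q := by omega
    exact_mod_cast this
  have hsq : 1 ≤ √(q : ℝ) := by
    rw [Real.one_le_sqrt]
    exact hqR
  intro j k hj hk hjk
  set X := Xg e f with hX
  have hXm : ∀ x, x ∈ X ↔ (x ≠ 0 ∧ x ≠ 1 ∧ x ≠ 1 - f ∧ x ≠ e ∧ (e + f) * x ≠ e) := by
    intro x
    rw [hX, Xg]
    simp
  set B : Finset F := {0, 1, 1 - f, e, e / (e + f)} with hBdef
  have hB5 : #B ≤ 5 := Finset.card_le_five
  have hB : ∀ x, x ∉ X → x ∈ B := by
    intro x hx
    rw [hXm] at hx
    rw [hBdef]
    simp only [Finset.mem_insert, Finset.mem_singleton]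
    by_contra hcon
    push Not at hcon
    obtain ⟨c1, c2, c3, c4, c5⟩ := hcon
    apply hx
    refine ⟨c1, c2, c3, c4, ?_⟩
    intro h6
    by_cases h0 : e + f = 0
    · rw [h0, zero_mul] at h6
      exact he h6.symm
    · apply c5
      rw [eq_div_iff h0, mul_comm]
      exact h6
  have hXc : (q : ℝ) - 5 ≤ #X := by
    have h1 : q ≤ #X + #B := by
      have h2 : (Finset.univ : Finset F) ⊆ X ∪ B := by
        intro x _
        rw [Finset.mem_union]
        by_cases hx : x ∈ X
        · exact Or.inl hx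
        · exact Or.inr (hB x hx)
      calc q = #(Finset.univ : Finset F) := by rw [hqdef]; rfl
        _ ≤ #(X ∪ B) := Finset.card_le_card h2
        _ ≤ #X + #B := Finset.card_union_le _ _
    have h3 : (q : ℝ) ≤ #X + 5 := by
      have : q ≤ #X + 5 := by omega
      exact_mod_cast this
    linarith
  -- the final estimate
  have fin : ∀ g : F → ℂ, (∀ x, ‖g x‖ ≤ 1) →
      (∀ x ∈ X, (χ ^ j) (1 - x) * (χ ^ k) (1 - Mg e f x) = g x) →
      ‖∑ x, g x‖ ^ 2 ≤ 16 * q * √q →
      ‖∑ x ∈ X, ex (j * cg β x + k * (fun x => cg β (Mg e f x)) x)‖ ≤ κ * #X := by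
    intro g hg hh hs
    have e1 : ∀ x ∈ X, ex (j * cg β x + k * (fun x => cg β (Mg e f x)) x) = g x := by
      intro x hx
      rw [← hh x hx]
      obtain ⟨x0, x1, xf, xe, xm⟩ := (hXm x).1 hx
      have n1 : 1 - x ≠ 0 := sub_ne_zero.mpr (Ne.symm x1)
      have n2 : 1 - Mg e f x = f * (x - e) / ((e + f) * x - e) := by
        unfold Mg
        have : (e + f) * x - e ≠ 0 := sub_ne_zero.mpr xm
        rw [eq_div_iff this, sub_mul, div_mul_cancel₀ _ this]
        ring
      have n3 : 1 - Mg e f x ≠ 0 := by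
        rw [n2]
        exact div_ne_zero (mul_ne_zero hf (sub_ne_zero.mpr xe)) (sub_ne_zero.mpr xm)
      rw [ex_add, hχ1 _ n1 j, hχ1 _ n3 k]
      rfl
    have e2 := miss X B g _ hB hB5 hg e1
    refine e2.trans ?_
    refine (hlim _ (norm_nonneg _) hs).trans ?_
    exact mul_le_mul_of_nonneg_left hXc hκ.le
  have hshift : ∀ g : F → ℂ, ∑ x, g (1 - x) = ∑ x, g x := by
    intro g
    exact (Equiv.subLeft (1 : F)).sum_comp g
  by_cases hk0 : k = 0
  · have hj0 : j ≠ 0 := fun h => hjk ⟨h, hk0⟩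
    refine fin (fun x => (χ ^ j) (1 - x)) (fun x => nrm _ _) ?_ ?_
    · intro x hx
      obtain ⟨x0, x1, xf, xe, xm⟩ := (hXm x).1 hx
      have n2 : 1 - Mg e f x = f * (x - e) / ((e + f) * x - e) := by
        unfold Mg
        have : (e + f) * x - e ≠ 0 := sub_ne_zero.mpr xm
        rw [eq_div_iff this, sub_mul, div_mul_cancel₀ _ this]
        ring
      have n3 : 1 - Mg e f x ≠ 0 := by
        rw [n2]
        exact div_ne_zero (mul_ne_zero hf (sub_ne_zero.mpr xe)) (sub_ne_zero.mpr xm)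
      rw [hk0, zpow_zero, MulChar.one_apply (Ne.isUnit n3), mul_one]
    · rw [hshift (fun x => (χ ^ j) x)]
      have h0 : ∑ x, (χ ^ j) x = 0 := by
        apply MulChar.sum_eq_zero_of_ne_one
        apply hχ2 j hj0
        have : (K : ℤ) + 6 ≤ q := by exact_mod_cast hq2
        omega
      rw [h0]
      rw [norm_zero]
      have : 0 ≤ (q : ℝ) * √q := by positivity
      nlinarith
  · have hψ : χ ^ k ≠ 1 := by
      apply hχ2 k hk0
      have : (K : ℤ) + 6 ≤ q := by exact_mod_cast hq2
      omega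
    by_cases h0 : e + f = 0
    · -- the degenerate case
      have hf' : f = -e := by linear_combination h0
      have he1 : e ≠ 1 := by
        intro h1
        exact hn ⟨h1, by rw [hf', h1]⟩
      refine fin (fun x => (χ ^ j) (1 - x) * (χ ^ k) (x - e)) ?_ ?_ ?_
      · intro x
        rw [norm_mul]
        exact mul_le_one₀ (nrm _ _) (norm_nonneg _) (nrm _ _)
      · intro x hx
        have n2 : 1 - Mg e f x = x - e := by
          unfold Mg
          rw [h0, zero_mul, zero_sub, hf']
          field_simp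
          ring
        rw [n2]
      · have h1 : ∀ x : F, (χ ^ j) (1 - x) * (χ ^ k) (x - e) =
            (fun y => (χ ^ j) y * (χ ^ k) (1 - e - y)) (1 - x) := by
          intro x
          show _ = (χ ^ j) (1 - x) * (χ ^ k) (1 - e - (1 - x))
          congr 2
          ring
        rw [Finset.sum_congr rfl fun x _ => h1 x,
          hshift (fun y => (χ ^ j) y * (χ ^ k) (1 - e - y))]
        have h2 : ∀ y : F, (χ ^ j) y * (χ ^ k) (1 - e - y) =
            (χ ^ k) (-1) * ((χ ^ j) y * (χ ^ k) (y - (1 - e))) := by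
          intro y
          have h3 : (1 - e - y) = (-1) * (y - (1 - e)) := by ring
          rw [h3, map_mul]
          ring
        rw [Finset.sum_congr rfl fun x _ => h2 x, ← Finset.mul_sum, norm_mul]
        have h4 := hJ F (χ ^ j) (χ ^ k) (1 - e) hψ (sub_ne_zero.mpr (Ne.symm he1))
        have h5 : ‖(χ ^ k) (-1)‖ * ‖∑ y, (χ ^ j) y * (χ ^ k) (y - (1 - e))‖ ≤
            ‖∑ y, (χ ^ j) y * (χ ^ k) (y - (1 - e))‖ :=
          mul_le_of_le_one_left (norm_nonneg _) (nrm _ _)
        have h6 := pow_le_pow_left₀ (mul_nonneg (norm_nonneg _) (norm_nonneg _)) h5 2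
        refine h6.trans (h4.trans ?_)
        rw [← hqdef]
        nlinarith
    · -- the general case
      set t := e / (e + f) with ht
      have het : e ≠ t := by
        intro h1
        rw [ht, eq_div_iff h0] at h1
        have h2 : e * (e + f - 1) = 0 := by linear_combination h1
        rcases mul_eq_zero.1 h2 with h3 | h3
        · exact he h3
        · exact hef (by linear_combination h3)
      refine fin (fun x => (χ ^ k) (f / (e + f)) *
        ((χ ^ j) (1 - x) * ((χ ^ k) (x - e) * (χ ^ k)⁻¹ (x - t)))) ?_ ?_ ?_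
      · intro x
        rw [norm_mul, norm_mul, norm_mul]
        refine mul_le_one₀ (nrm _ _) (by positivity) ?_
        refine mul_le_one₀ (nrm _ _) (by positivity) ?_
        exact mul_le_one₀ (nrm _ _) (norm_nonneg _) (nrm _ _)
      · intro x hx
        obtain ⟨x0, x1, xf, xe, xm⟩ := (hXm x).1 hx
        have hd : (e + f) * x - e ≠ 0 := sub_ne_zero.mpr xm
        have hxt : x - t ≠ 0 := by
          intro h1
          apply hd
          have : x = e / (e + f) := by rw [← ht]; linear_combination h1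
          rw [this, mul_div_cancel₀ _ h0, sub_self]
        have n2 : 1 - Mg e f x = f / (e + f) * (x - e) * (x - t)⁻¹ := by
          have h2 : (e + f) * x - e = (e + f) * (x - t) := by
            rw [mul_sub, ht, mul_div_cancel₀ _ h0]
          unfold Mg
          rw [h2]
          field_simp
          rw [ht]
          field_simp
          ring
        rw [n2, map_mul, map_mul, MulChar.inv_apply' (χ ^ k) (x - t)]
        ring
      · rw [← Finset.mul_sum, norm_mul]
        have h1 : ∀ x : F, (χ ^ j) (1 - x) * ((χ ^ k) (x - e) * (χ ^ k)⁻¹ (x - t)) =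
            (fun y => (χ ^ j) y * ((χ ^ k) (y - (1 - e)) * (χ ^ k)⁻¹ (y - (1 - t)))) (1 - x) := by
          intro x
          show _ = (χ ^ j) (1 - x) * ((χ ^ k) (1 - x - (1 - e)) * (χ ^ k)⁻¹ (1 - x - (1 - t)))
          have h3 : (1 - x - (1 - e)) = (-1) * (x - e) := by ring
          have h4 : (1 - x - (1 - t)) = (-1) * (x - t) := by ring
          rw [h3, h4, map_mul, map_mul]
          have h5 : (χ ^ k) (-1) * (χ ^ k)⁻¹ (-1) = 1 := by
            rw [← MulChar.mul_apply, mul_inv_cancel, MulChar.one_apply (by simp)]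
          linear_combination (-(χ ^ j) (1 - x) * (χ ^ k) (x - e) * (χ ^ k)⁻¹ (x - t)) * h5
        rw [Finset.sum_congr rfl fun x _ => h1 x,
          hshift (fun y => (χ ^ j) y * ((χ ^ k) (y - (1 - e)) * (χ ^ k)⁻¹ (y - (1 - t))))]
        have h4 := hT F (χ ^ j) (χ ^ k) (1 - e) (1 - t) hψ (by
          intro h
          exact het (by linear_combination -h))
        have h5 : ‖(χ ^ k) (f / (e + f))‖ * ‖∑ y, (χ ^ j) y * ((χ ^ k) (y - (1 - e)) *
            (χ ^ k)⁻¹ (y - (1 - t)))‖ ≤
            ‖∑ y, (χ ^ j) y * ((χ ^ k) (y - (1 - e)) * (χ ^ k)⁻¹ (y - (1 - t)))‖ :=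
          mul_le_of_le_one_left (norm_nonneg _) (nrm _ _)
        have h6 := pow_le_pow_left₀ (mul_nonneg (norm_nonneg _) (norm_nonneg _)) h5 2
        refine h6.trans (h4.trans ?_)
        rw [← hqdef]
        have : 0 ≤ (q : ℝ) * √q := by positivity
        nlinarith

end Pool.Agent.Helper50.CO
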